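import Pool.Agent.H903HT.Stmts

set_option autoImplicit false

open MeasureTheory Filter Topology Set
open scoped ContDiff

namespace Pool.Agent.H416R3

open Pool.Agent.H903HT

theorem approx1_mono {S S' : Set (ℝ × ℝ → ℂ)} (h : S' ⊆ S) (hS : Approx1 S) : Approx1 S' := by
  intro ε hε
  obtain ⟨N, p, hp, H⟩ := hS ε hε
  exact ⟨N, p, hp, fun c hc => H c (h hc)⟩

theorem approx2_mono {S S' : Set (ℝ × ℝ → ℂ)} (h : S' ⊆ S) (hS : Approx2 S) : Approx2 S' := by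
  intro ε hε
  obtain ⟨N, p, hp, H⟩ := hS ε hε
  exact ⟨N, p, hp, fun c hc => H c (h hc)⟩

theorem half_int (k : ℤ) : (1 / 2 : ℝ) ≤ |(k : ℝ) + 1 / 2| := by
  rcases le_or_gt 0 k with h | h
  · have : (0 : ℝ) ≤ k := by exact_mod_cast h
    rw [abs_of_nonneg (by linarith)]
    linarith
  · have : (k : ℝ) ≤ -1 := by exact_mod_cast (by omega : k ≤ -1)
    rw [abs_of_nonpos (by linarith)]
    linarith

theorem eLp_le (c : Lp ℂ 2 μQ) (C : ℝ) (h : ‖c‖ ≤ C) :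
    eLpNorm (c : ℝ × ℝ → ℂ) 2 μQ ≤ ENNReal.ofReal C := by
  rw [← ENNReal.ofReal_toReal (Lp.eLpNorm_ne_top c), ← Lp.norm_def]
  exact ENNReal.ofReal_le_ofReal h

theorem htCompactAssembly : TaskCompactAssembly := by
  intro hpol hprof hiso htr hA1 hA2 hTB m n
  classical
  set A : Set L2 := {u : L2 | Mode m n u ∧ ∃ F : L21, DbarFun u F ∧ ‖u‖^2 + ‖F‖^2 ≤ 1} with hA
  have hprof' : ∀ u : L2, ∃ c : Lp ℂ 2 μQ, Mode m n u → Prof m n u c := by
    intro u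
    by_cases h : Mode m n u
    · obtain ⟨c, hc⟩ := hprof hpol m n u h
      exact ⟨c, fun _ => hc⟩
    · exact ⟨0, fun h' => absurd h' h⟩
  choose J hJ using hprof'
  rcases A.eq_empty_or_nonempty with he | ⟨u0, hu0⟩
  · rw [he]; exact totallyBounded_empty
  have hnorm : ∀ u ∈ A, ∀ u' ∈ A, ‖J u - J u'‖ = ‖u - u'‖ := fun u hu u' hu' =>
    hiso hpol m n u u' (J u) (J u') (hJ u hu.1) (hJ u' hu'.1)
  have hle1 : ∀ u ∈ A, ‖u‖ ≤ 1 := by
    intro u hu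
    obtain ⟨-, F, -, h⟩ := hu
    nlinarith [norm_nonneg u, sq_nonneg ‖F‖]
  set C : ℝ := ‖J u0‖ + 4 with hC
  have hCpos : 0 < C := by positivity
  have hJle : ∀ u ∈ A, ‖J u‖ ≤ C := by
    intro u hu
    have h1 := hnorm u hu u0 hu0
    have h2 : ‖J u‖ ≤ ‖J u - J u0‖ + ‖J u0‖ := by
      have := norm_add_le (J u - J u0) (J u0)
      rwa [sub_add_cancel] at this
    have h3 : ‖u - u0‖ ≤ ‖u‖ + ‖u0‖ := norm_sub_le _ _
    have h4 := hle1 u hu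
    have h5 := hle1 u0 hu0
    linarith
  set S : Set (Lp ℂ 2 μQ) := J '' A with hS
  have hS1 : ∀ c ∈ S, ‖c‖ ≤ C := by
    rintro c ⟨u, hu, rfl⟩
    exact hJle u hu
  have hν2 : (1 / 2 : ℝ) ≤ |(m : ℝ) + (n : ℝ) + 3 / 2| := by
    have := half_int (m + n + 1)
    have e : (((m + n + 1 : ℤ)) : ℝ) + 1 / 2 = (m : ℝ) + (n : ℝ) + 3 / 2 := by push_cast; ring
    rwa [e] at this
  have key : ∀ u ∈ A, ∃ h1 h2 : Lp ℂ 2 μQ, ‖h1‖ ≤ C ∧ ‖h2‖ ≤ C ∧
      Weak1 (m + 1/2) (J u) h1 ∧ Weak2 (m + n + 3/2) (J u) h2 := by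
    intro u hu
    have hu' := hu
    obtain ⟨hm, F, hF, hb⟩ := hu
    obtain ⟨h1, h2, b1, b2, w1, w2⟩ := htr m n u F (J u) hF (hJ u hm)
    have hF1 : ‖F‖ ≤ 1 := by nlinarith [norm_nonneg F, sq_nonneg ‖u‖]
    have hJ0 : 0 ≤ ‖J u0‖ := norm_nonneg _
    exact ⟨h1, h2, by linarith, by linarith, w1, w2⟩
  have hT : TotallyBounded S := by
    refine hTB S C hS1 ?_ ?_
    · refine approx1_mono ?_ (hA1 (m + 1/2) (half_int m) C hCpos)
      rintro _ ⟨c, ⟨u, hu, rfl⟩, rfl⟩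
      obtain ⟨h1, h2, b1, b2, w1, w2⟩ := key u hu
      exact ⟨h1, Lp.memLp _, Lp.memLp _, eLp_le _ _ (hJle u hu), eLp_le _ _ b1, w1⟩
    · refine approx2_mono ?_ (hA2 (m + n + 3/2) hν2 C hCpos)
      rintro _ ⟨c, ⟨u, hu, rfl⟩, rfl⟩
      obtain ⟨h1, h2, b1, b2, w1, w2⟩ := key u hu
      exact ⟨h2, Lp.memLp _, Lp.memLp _, eLp_le _ _ (hJle u hu), eLp_le _ _ b2, w2⟩
  have hisom : Isometry (fun u : A => J u.1) := by
    refine Isometry.of_dist_eq fun u u' => ?_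
    rw [dist_eq_norm, hnorm u.1 u.2 u'.1 u'.2]
    rw [Subtype.dist_eq, dist_eq_norm]
  have hpre : TotallyBounded ((fun u : A => J u.1) ⁻¹' S) :=
    totallyBounded_preimage hisom.isUniformInducing hT
  have huniv : ((fun u : A => J u.1) ⁻¹' S) = univ := by
    ext u
    simp only [mem_preimage, mem_univ, iff_true]
    exact ⟨u.1, u.2, rfl⟩
  rw [huniv] at hpre
  have := hpre.image uniformContinuous_subtype_val
  rwa [image_univ, Subtype.range_coe] at this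

end Pool.Agent.H416R3
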