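import Pool.Agent.H197R3.SF.Stmts

set_option autoImplicit false

namespace Pool.Agent.H416R3

open MeasureTheory FourierTransform SchwartzMap Pool.Agent.H197R3.SF

theorem sfU2 : Pool.Agent.H197R3.SF.TaskU2 := by
  intro f hf h
  have hF : ∀ w : ℝ, 𝓕 f w = 0 := by
    intro w
    rw [Real.fourier_real_eq_integral_exp_smul]
    rw [← h (2 * Real.pi * w)]
    refine integral_congr_ae (Filter.Eventually.of_forall fun v => ?_)
    simp only [ch, smul_eq_mul]
    rw [mul_comm]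
    congr 2
    push_cast
    ring
  have key : ∀ᵐ x ∂(volume : Measure ℝ), f x = 0 := by
    apply ae_eq_zero_of_integral_contDiff_smul_eq_zero hf.locallyIntegrable
    intro g hg1 hg2
    have hc1 : ContDiff ℝ (⊤ : ℕ∞) (fun x => ((g x : ℝ) : ℂ)) :=
      Complex.ofRealCLM.contDiff.comp hg1
    have hc2 : HasCompactSupport (fun x => ((g x : ℝ) : ℂ)) :=
      hg2.comp_left (g := fun y : ℝ => (y : ℂ)) (by simp)
    let G : 𝓢(ℝ, ℂ) := hc2.toSchwartzMap hc1
    have hG : ∀ x, G x = (g x : ℂ) := fun x => rfl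
    have hinv : 𝓕 (𝓕⁻ G) = G := FourierTransform.fourier_fourierInv_eq G
    have e1 : ∫ ξ, (𝓕 f ξ) • ((𝓕⁻ G : 𝓢(ℝ, ℂ)) ξ) = ∫ x, f x • (𝓕 ((𝓕⁻ G : 𝓢(ℝ, ℂ)) : ℝ → ℂ) x) := by
      simpa using! (VectorFourier.integral_fourierIntegral_smul_eq_flip (L := innerₗ ℝ)
        Real.continuous_fourierChar continuous_inner hf ((𝓕⁻ G : 𝓢(ℝ, ℂ)).integrable))
    have e2 : (𝓕 ((𝓕⁻ G : 𝓢(ℝ, ℂ)) : ℝ → ℂ)) = (G : ℝ → ℂ) := by
      rw [← SchwartzMap.fourier_coe, hinv]
    rw [e2] at e1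
    simp only [hF, zero_smul, integral_zero] at e1
    rw [e1]
    refine integral_congr_ae (Filter.Eventually.of_forall fun x => ?_)
    simp only [hG, smul_eq_mul, Complex.real_smul]
    ring
  exact key

end Pool.Agent.H416R3
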